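import Pool.Agent.Lib.H19S.IFin2

/-!
# MP_8001a2_pr: subsequential limits of the circle packing measures of uniform simple
triangulations of the sphere are almost surely singular
-/

namespace Pool.Agent.Results.MP_8001a2_pr.SingularLimits

open MeasureTheory Filter Topology H19S

/-- For every isomorphism class `T` of simple triangulations of the sphere with `n` vertices let `P n T`
be the uniform measure on the tangency points of a circle packing of `T` (any choice, for instance
the packing renormalized by its conformal barycenter).  Let `k` be a strictly increasing sequence,
`law j` the law of the class modulo rotations of `P (k j) T`, `T` uniform, and let these laws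
converge weakly to `Q`.  Then for `Q`-almost every class all measures in it are
singular with respect to the area measure of the sphere. -/
theorem result (P : ∀ n, Cls n → ProbabilityMeasure S2) (hP : ∀ n T, IsTangMeas T (P n T))
    (k : ℕ → ℕ) (hk : StrictMono k) (law : ℕ → ProbabilityMeasure MQ)
    (hlaw : ∀ j, (law j : Measure MQ) =
      (ProbabilityTheory.uniformOn (Set.univ : Set (Cls (k j)))).map (fun T => toMQ (P (k j) T)))
    (Q : ProbabilityMeasure MQ) (hQ : Tendsto law atTop (𝓝 Q)) :
    ∀ᵐ x ∂(Q : Measure MQ), ∀ μ : ProbabilityMeasure S2, toMQ μ = x →
      (μ : Measure S2) ⟂ₘ area :=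
  H19S.final P hP k hk law hlaw Q hQ

end Pool.Agent.Results.MP_8001a2_pr.SingularLimits
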